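import Pool.Agent.N889.AO.Stm

/-!
Project AO, DERV: derivations of the graph algebra respect the vicinal preorder.
-/

set_option autoImplicit false

namespace Pool.Agent.N346.AO

open Matrix
open Pool.Agent.N889.AO

theorem stmDerv : StmDerv := by
  classical
  intro n G _ D hD
  have hcol : ∀ i j, (D *ᵥ Pi.single j (1 : ℚ)) i = D i j := by
    intro i j
    simp [Matrix.mulVec_single]
  have hs : ∀ a i : Fin n, (Pi.single (Sum.inl a) (1 : ℚ) : Fin n ⊕ G.edgeSet → ℚ) (Sum.inl i) =
      if i = a then 1 else 0 := by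
    intro a i
    simp [Pi.single_apply]
  refine ⟨fun a b hab x hbx hxa => ?_, fun b e => ?_⟩
  · by_contra hax
    by_cases hba : b = a
    · subst hba
      exact hax hbx
    have hxb : x ≠ b := hbx.ne.symm
    have hax' : ¬ G.Adj x a := fun h => hax h.symm
    have h0 : mulc (cG G) ℚ (Pi.single (Sum.inl a) 1) (Pi.single (Sum.inl x) 1) = 0 := by
      funext k
      rcases k with k | e
      · exact mulc_cG_inl G ℚ _ _ k
      · obtain ⟨i, j, h, hij, rfl⟩ := edge_cases G e
        rw [mulc_cG_inr G ℚ _ _ i j h hij, hs, hs, hs, hs]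
        have h1 : ¬ (i = a ∧ j = x) := fun h' => hax (h'.1 ▸ h'.2 ▸ h)
        have h2 : ¬ (j = a ∧ i = x) := fun h' => hax' (h'.1 ▸ h'.2 ▸ h)
        rw [ite_zero_mul_ite_zero, ite_zero_mul_ite_zero, if_neg h1, if_neg h2]
        simp
    have h1 := hD (Pi.single (Sum.inl a) 1) (Pi.single (Sum.inl x) 1)
    rw [h0, Matrix.mulVec_zero] at h1
    rcases lt_or_gt_of_ne hxb.symm with hlt | hlt
    · have h2 := congrFun h1 (Sum.inr ⟨s(b, x), G.mem_edgeSet.mpr hbx⟩)
      rw [Pi.add_apply, mulc_cG_inr G ℚ _ _ b x hbx hlt, mulc_cG_inr G ℚ _ _ b x hbx hlt, hcol,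
        hcol, hcol, hcol, hs, hs, hs, hs, if_pos rfl, if_neg hxb.symm, if_neg hba,
        if_neg hxa] at h2
      apply hab
      simpa using h2.symm
    · have h2 := congrFun h1 (Sum.inr ⟨s(x, b), G.mem_edgeSet.mpr hbx.symm⟩)
      rw [Pi.add_apply, mulc_cG_inr G ℚ _ _ x b hbx.symm hlt,
        mulc_cG_inr G ℚ _ _ x b hbx.symm hlt, hcol,
        hcol, hcol, hcol, hs, hs, hs, hs, if_pos rfl, if_neg hxb.symm, if_neg hba,
        if_neg hxa] at h2
      apply hab
      simpa using h2.symm
  · obtain ⟨i, j, h, hij, rfl⟩ := edge_cases G e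
    have h0 : mulc (cG G) ℚ (Pi.single (Sum.inl i) 1) (Pi.single (Sum.inl j) 1) =
        Pi.single (Sum.inr ⟨s(i, j), G.mem_edgeSet.mpr h⟩) 1 := by
      funext k
      rcases k with k | e
      · rw [mulc_cG_inl G ℚ _ _ k]
        simp
      · obtain ⟨i', j', h', hij', rfl⟩ := edge_cases G e
        rw [mulc_cG_inr G ℚ _ _ i' j' h' hij', hs, hs, hs, hs, ite_zero_mul_ite_zero,
          ite_zero_mul_ite_zero, Pi.single_apply]
        have h1 : ¬ (j' = i ∧ i' = j) := by
          rintro ⟨rfl, rfl⟩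
          exact absurd hij (not_lt_of_gt hij')
        rw [if_neg h1]
        by_cases h2 : i' = i ∧ j' = j
        · obtain ⟨rfl, rfl⟩ := h2
          simp
        · have h3 : ¬ (s(i', j') = s(i, j)) := by
            rw [Sym2.eq_iff]
            rintro (⟨h4, h5⟩ | ⟨h4, h5⟩)
            · exact h2 ⟨h4, h5⟩
            · exact h1 ⟨h5, h4⟩
          rw [if_neg h2, if_neg]
          · simp
          · intro h4
            have h5 := Sum.inr_injective h4
            exact h3 (congrArg Subtype.val h5)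
    have h1 := hD (Pi.single (Sum.inl i) 1) (Pi.single (Sum.inl j) 1)
    rw [h0] at h1
    have h2 := congrFun h1 (Sum.inl b)
    rw [Pi.add_apply, mulc_cG_inl, mulc_cG_inl, hcol, add_zero] at h2
    exact h2

end Pool.Agent.N346.AO
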